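import Pool.Agent.H498.EQ.Fin7

/-!
# The cycles of the geometric Breuil-Mezard conjecture which are seen at one embedding

`K / ℚ_p` finite with ring of integers `O`, uniformizer `ϖ` and residue field `k` (`q = p ^ f` elements), `d = n + 1`,
`S = Hom(K, E)`. Fix `σ₀ ∈ S` and an embedding `ι` of `k` into an algebraically closed field `F` of
characteristic `p` which is the residue embedding of `σ₀`; the embedding `σ ∈ S` induces the residue embedding
`x ↦ ι(x) ^ (p ^ κ σ)`, `κ : S → ℤ/f` surjective, `κ σ₀ = 0`. `t : Fˣ → ℂˣ` is an injective homomorphism.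

* `h : Wt S d`, `Dom h`: the regular labelled Hodge-Tate weights `h_{σ,1} > ... > h_{σ,d}`; `rho n = (d - 1, ..., 0)`.
  `s h` is the Weyl character (`IsWeyl`), `evx (pnt κ p t x) (s h)` its value at the lift of the semisimple class with
  the eigenvalues `x` (`IsEigen`). `Function.update h σ₀ v`: the weights at `σ₀` are replaced by `v`.
* `D`: the Serre weights, irreducible (`IrrRep`) and pairwise non-isomorphic (`IsoRep`) representations of `GL_d(k)`,
  with Brauer characters `D.br w`. `mult h w`: the multiplicity of `w` in the reduction of the product of the algebraic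
  representation for `h` and a representation `σ` (`IsMult`), if `θ` is the Brauer character of the reduction of
  `σ`. `mult₁ h w = n^crys_w(h)` is the crystalline case `θ = 1`.
* `g c`, `c : C`: representatives of the conjugacy classes of elements of `GL_d(k)` of order prime to `p`
  (`IsReps`), with eigenvalues `x c`. `eqp (x c)` is the number of pairs `i < j` with `x c i = x c j`.
* `LatAll mult₁ ⊆ ℤ ^ W` is the lattice generated by the vectors `n^crys(h)` for all `h`, of finite index (the index is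
  `1` by a theorem of Steinberg, which is not used). `Lat` is the lattice generated by the vectors where only the
  weights at `σ₀` vary.
* `IsAP a v`: `v` is an arithmetic progression with difference `a`. `qprod q n = ∏_{m ≤ d} (q ^ m - 1)`.
* `IsType ϖ π₀ p θ δ 2`: `θ` is the Brauer character of the reduction of an irreducible smooth representation of
  `GL_d(O)` no twist of which by a character of `Oˣ` is trivial on the `g ≡ 1 mod ϖ`.
* `IsCuspType ϖ π₀ p θ`: `θ` is the Brauer character of the reduction of an irreducible smooth representation `ρ` of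
  `GL_d(O)` which is, up to a twist, inflated from a representation of `GL_d(k)` without nonzero vectors fixed by the
  unitriangular matrices, or such that, for some `r ≥ 1`, character `χ` of `Oˣ` and `Ψ ≠ 1` of `k`, `ρ = χ ∘ det` on the
  `g ≡ 1 mod ϖ ^ (r + 1)` and `ρ(1 + ϖ ^ r X) v = χ(det) Ψ(tr (β X)) v` for some `v ≠ 0` and some non-scalar `β` whose
  characteristic polynomial is a power of an irreducible polynomial (`Primary`). (The `σ(τ)` of the inertial types `τ`
  of supercuspidal representations are of this kind; this remark is not used.)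

**Theorem.** (1) For a type `θ` and weights `h_σ`, `σ ≠ σ₀`, fixed, the lattice generated by the multiplicity vectors for
all weights at `σ₀` has index `[ℤ ^ W : LatAll mult₁] |N|` with the integer
`N = ∏_c θ(g_c) · ∏_c ∏_{σ ≠ σ₀} (Weyl character of h_σ at c)` (infinite index if `N = 0`).
(2) For any family of pairs `(θ_i, (h_{i,σ})_{σ ≠ σ₀})` the cycles `Z_w` (in torsion-free groups), or non-negative integers, are
determined by the sums `∑_w mult w Z_w` for all `i` and all weights at `σ₀` if and only if for every `c` some pair does not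
vanish at `c`.
(3) Crystalline case, `d ≥ 2`, `h_σ` an arithmetic progression with difference `a_σ` for `σ ≠ σ₀` (always so if `d = 2`):
if all `a_σ` are prime to `∏_{m ≤ d} (q ^ m - 1)`, then the index is
`[ℤ ^ W : LatAll mult₁] (∏_{σ ≠ σ₀} a_σ) ^ E`, `E` the number of pairs `i < j` of equal eigenvalues of all classes, `E = q - 1` for
`d = 2`; otherwise the index is infinite: the cycles are not determined by the crystalline stacks with fixed weights at the
`σ ≠ σ₀`.
(4) For every type of level at least two (`d ≥ 2`, and `q ≥ 3` if `d = 2`) and all fixed `h_σ`, `σ ≠ σ₀`, the index is infinite: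
the potentially crystalline stacks for one such type never determine the cycles.
(5) If `d ≤ q - 1`, then all cuspidal and primary types together and all Hodge types do not determine the cycles.
-/

set_option autoImplicit false

namespace Pool.Agent.Results.MP_4c60d4_nt.OneEmbedding

open Pool.Agent.N28.BM Pool.Agent.H498.BT Pool.Agent.H498.EQ Matrix

/-- The sums over the Serre weights for all `i` and all weights `v` at `σ₀` determine non-negative integers. -/
def Determine {I W : Type} [Fintype W] {n : ℕ} (μ : I → (Fin (n + 1) → ℤ) → W → ℕ) : Prop :=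
  ∀ ν ν' : W → ℕ, (∀ i v, StrictAnti v → ∑ w, μ i v w * ν w = ∑ w, μ i v w * ν' w) → ν = ν'

/-- The sums over the Serre weights for all `i` and all weights `v` at `σ₀` determine elements of torsion-free groups. -/
def DetermineCycles {I W : Type} [Fintype W] {n : ℕ} (μ : I → (Fin (n + 1) → ℤ) → W → ℕ) : Prop :=
  ∀ (M : Type) [AddCommGroup M] [IsAddTorsionFree M] (Z Z' : W → M),
    (∀ i v, StrictAnti v → ∑ w, μ i v w • Z w = ∑ w, μ i v w • Z' w) → Z = Z'

open scoped Classical in
/-- **The cycles which are seen at one embedding.** -/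
theorem result {k F : Type} [Field k] [Fintype k] [Field F] [IsAlgClosed F] (ι : k →+* F)
    {p f : ℕ} [Fact p.Prime] [CharP F p] (hk : Fintype.card k = p ^ f) (hf : f ≠ 0)
    {S : Type} [Fintype S] [DecidableEq S] {n : ℕ} (κ : S → ZMod f) (hκ : Function.Surjective κ) (σ₀ : S)
    (h0 : κ σ₀ = 0) (t : Fˣ →* ℂˣ) (ht : Function.Injective t)
    (s : Wt S (n + 1) → P S (n + 1)) (hs : IsWeyl s) (D : SerreWeights k F (n + 1) t)
    (hirr : ∀ w, IrrRep (D.rep w)) (hiso : ∀ w w', w ≠ w' → ¬ IsoRep (D.rep w) (D.rep w'))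
    {O : Type} [CommRing O] [IsDomain O] [IsDiscreteValuationRing O] {ϖ : O} (hϖ : Irreducible ϖ)
    (π₀ : O →+* k) (hπ₀ : Function.Surjective π₀)
    (mult₁ : Wt S (n + 1) → D.W → ℕ) (hmult₁ : IsMult ι (p := p) κ t s D (fun _ => 1) mult₁) :
    (∃ (C : Type) (_ : Fintype C) (g : C → GL (Fin (n + 1)) k), IsReps p g) ∧
    ∀ (C : Type) [Fintype C] (g : C → GL (Fin (n + 1)) k) (x : C → Fin (n + 1) → Fˣ), IsReps p g →
      (∀ c, IsEigen ι (g c) (x c)) →
      (LatAll mult₁).index ≠ 0 ∧
      (∀ (θ : GL (Fin (n + 1)) k → ℂ) (mult : Wt S (n + 1) → D.W → ℕ), IsMult ι (p := p) κ t s D θ mult →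
        ∀ h, Dom h → ∃ N : ℤ,
          (N : ℂ) = (∏ c, θ (g c)) * ∏ c, evx (pnt κ p t (x c)) (s (Function.update h σ₀ (rho n))) ∧
          (Lat fun v => mult (Function.update h σ₀ v)).index = (LatAll mult₁).index * N.natAbs) ∧
      (∀ (I : Type) (θ : I → GL (Fin (n + 1)) k → ℂ) (mult : I → Wt S (n + 1) → D.W → ℕ),
        (∀ i, IsMult ι (p := p) κ t s D (θ i) (mult i)) → ∀ h : I → Wt S (n + 1), (∀ i, Dom (h i)) →
        List.TFAE [∀ c, ∃ i, evx (pnt κ p t (x c)) (s (Function.update (h i) σ₀ (rho n))) * θ i (g c) ≠ 0,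
          Determine fun i v => mult i (Function.update (h i) σ₀ v),
          DetermineCycles fun i v => mult i (Function.update (h i) σ₀ v)]) ∧
      (1 ≤ n → ∀ h : Wt S (n + 1), Dom h → ∀ a : S → ℕ, (∀ σ, σ ≠ σ₀ → IsAP (a σ) (h σ)) →
        ((∀ σ, σ ≠ σ₀ → (a σ).Coprime (qprod (Fintype.card k) n)) →
          (Lat fun v => mult₁ (Function.update h σ₀ v)).index =
            (LatAll mult₁).index * (∏ σ ∈ Finset.univ.erase σ₀, a σ) ^ (∑ c, eqp (x c))) ∧
        ((∃ σ, σ ≠ σ₀ ∧ ¬ (a σ).Coprime (qprod (Fintype.card k) n)) →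
          (Lat fun v => mult₁ (Function.update h σ₀ v)).index = 0)) ∧
      (n = 1 → ∑ c, eqp (x c) = Fintype.card k - 1 ∧
        ∀ h : Wt S (n + 1), Dom h → ∀ σ, IsAP (h σ 0 - h σ (Fin.last n)).toNat (h σ)) ∧
      (1 ≤ n → (n = 1 → 3 ≤ Fintype.card k) → ∀ (θ : GL (Fin (n + 1)) k → ℂ) (δ : ℕ), IsType ϖ π₀ p θ δ 2 →
        ∀ mult : Wt S (n + 1) → D.W → ℕ, IsMult ι (p := p) κ t s D θ mult → ∀ h, Dom h →
          (Lat fun v => mult (Function.update h σ₀ v)).index = 0 ∧
          ¬ DetermineCycles fun (_ : Unit) v => mult (Function.update h σ₀ v)) ∧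
      (n + 1 ≤ Fintype.card k - 1 → ∀ (I : Type) (θ : I → GL (Fin (n + 1)) k → ℂ),
        (∀ i, IsCuspType ϖ π₀ p (θ i)) → ∀ mult : I → Wt S (n + 1) → D.W → ℕ,
        (∀ i, IsMult ι (p := p) κ t s D (θ i) (mult i)) → ∀ h : I → Wt S (n + 1), (∀ i, Dom (h i)) →
          ¬ Determine (fun i v => mult i (Function.update (h i) σ₀ v)) ∧
          ¬ DetermineCycles fun i v => mult i (Function.update (h i) σ₀ v)) := by
  have hpk : CharP k p := by
    refine ⟨fun x => ?_⟩
    rw [← CharP.cast_eq_zero_iff F p, ← map_natCast ι, map_eq_zero]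
  refine ⟨exists_reps k ι p n, ?_⟩
  intro C _ g x hg hx
  obtain ⟨h1, h2⟩ := index_pair ι hk hf κ hκ σ₀ h0 t ht s hs D hirr hiso g hg mult₁ hmult₁ x hx
  have h3 := fun (I : Type) (θ : I → GL (Fin (n + 1)) k → ℂ) mult hmult h hh =>
    family_tfae ι hk hf κ hκ σ₀ h0 t ht s hs D hirr hiso g hg mult₁ hmult₁ x hx (I := I) θ mult hmult h hh
  refine ⟨h1, h2, h3, ?_, ?_, ?_, ?_⟩
  · intro hn h hh a ha
    exact index_ap ι hk hf κ hκ σ₀ h0 t ht s hs D hirr hiso g hg mult₁ hmult₁ x hx hn h hh a ha
  · intro hn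
    subst hn
    exact ⟨eqp_two ι (p := p) g hg x hx, fun h hh σ => ap_two (h σ) (hh σ)⟩
  · intro hn hq θ δ hθ mult hmult h hh
    have hz := level_zero ι (p := p) g hg hϖ π₀ hπ₀ hn hq hθ
    refine ⟨?_, ?_⟩
    · obtain ⟨N, hN1, hN2⟩ := h2 θ mult hmult h hh
      rw [hz, zero_mul] at hN1
      have hN0 : N = 0 := by exact_mod_cast hN1
      rw [hN2, hN0, Int.natAbs_zero, mul_zero]
    · intro hdet
      obtain ⟨c, _, hc⟩ := Finset.prod_eq_zero_iff.1 hz
      have h4 : ∀ c, ∃ _ : Unit, evx (pnt κ p t (x c)) (s (Function.update h σ₀ (rho n))) * θ (g c) ≠ 0 :=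
        ((h3 Unit (fun _ => θ) (fun _ => mult) (fun _ => hmult) (fun _ => h) (fun _ => hh)).out 2 0).1 hdet
      obtain ⟨_, hi⟩ := h4 c
      exact hi (by rw [hc, mul_zero])
  · intro hq I θ hθ mult hmult h hh
    obtain ⟨c, hc⟩ := cusp_common_zero ι (p := p) g hg hϖ π₀ hπ₀ hq
    have hno : ¬ ∀ c, ∃ i, evx (pnt κ p t (x c)) (s (Function.update (h i) σ₀ (rho n))) * θ i (g c) ≠ 0 := by
      intro hall
      obtain ⟨i, hi⟩ := hall c
      exact hi (by rw [hc (θ i) (hθ i), mul_zero])
    refine ⟨fun hdet => hno (((h3 I θ mult hmult h hh).out 1 0).1 hdet),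
      fun hdet => hno (((h3 I θ mult hmult h hh).out 2 0).1 hdet)⟩

end Pool.Agent.Results.MP_4c60d4_nt.OneEmbedding
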